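import Pool.Agent.Helper56.LD.Goals

/-!
MP_0152c0_gt, packet LD-CO1: a good word.
-/

namespace Pool.Agent.Helper22.LD

open Pool.Agent.Helper56.LD

theorem exists_third (a b : Fin 3) : ∃ c : Fin 3, c ≠ a ∧ c ≠ b := by
  revert a b
  decide

/-- The recursive step. -/
noncomputable def step (n : ℕ) (F : ∀ m : ℕ, m < n → Fin 3) : Fin 3 :=
  if h : 2 ≤ n ∧ 2 ^ (Nat.log 2 n + 1) - 1 - n < n then
    (exists_third (F (2 ^ (Nat.log 2 n + 1) - 1 - n) h.2)
      (F (2 ^ (Nat.log 2 n + 1) - 1 - n - 1) (by omega))).choose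
  else 0

/-- The word. -/
noncomputable def word : ℕ → Fin 3 := fun n =>
  Nat.strongRec (motive := fun _ => Fin 3) (fun n F => step n F) n

theorem word_eq (n : ℕ) : word n = step n fun m _ => word m := by
  unfold word
  rw [Nat.strongRec]

theorem word_spec (n : ℕ) (h : 2 ≤ n ∧ 2 ^ (Nat.log 2 n + 1) - 1 - n < n) :
    word n ≠ word (2 ^ (Nat.log 2 n + 1) - 1 - n) ∧
      word n ≠ word (2 ^ (Nat.log 2 n + 1) - 1 - n - 1) := by
  rw [word_eq n]
  unfold step
  rw [dif_pos h]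
  exact (exists_third _ _).choose_spec

theorem pf_StmtWord : StmtWord := by
  refine ⟨word, ?_⟩
  intro k n m hnm hm1 hmk
  have hpow : 2 ^ (k + 1) = 2 * 2 ^ k := by rw [pow_succ]; ring
  have h1 : 2 ^ k ≤ n := by omega
  have h2 : n < 2 ^ (k + 1) := by omega
  have hlog : Nat.log 2 n = k := Nat.log_eq_of_pow_le_of_lt_pow h1 h2
  have hm : 2 ^ (Nat.log 2 n + 1) - 1 - n = m := by rw [hlog]; omega
  have hs := word_spec n (by rw [hm]; omega)
  rw [hm] at hs
  exact ⟨hs.1, fun _ => hs.2⟩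

end Pool.Agent.Helper22.LD
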